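import Mathlib

set_option autoImplicit false

/-! Noetherian thinning of an uncountable planar set and the generic choice of tuples. -/

namespace Pool.Agent.H535R2.EOC

open MvPolynomial

/-- evaluation of a polynomial in two variables at a pair -/
noncomputable def ev (a : ℝ × ℝ) (G : MvPolynomial (Fin 2) ℝ) : ℝ :=
  MvPolynomial.eval ![a.1, a.2] G

/-- every polynomial vanishes on all of `A` or on a countable part of `A` -/
def Thin (A : Set (ℝ × ℝ)) : Prop :=
  ∀ G : MvPolynomial (Fin 2) ℝ, (∀ a ∈ A, ev a G = 0) ∨ {a ∈ A | ev a G = 0}.Countable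

theorem exists_thin (Φ : Set (ℝ × ℝ)) (hΦ : ¬ Φ.Countable) :
    ∃ A ⊆ Φ, ¬ A.Countable ∧ Thin A := by
  let V : Ideal (MvPolynomial (Fin 2) ℝ) → Set (ℝ × ℝ) := fun I =>
    {a ∈ Φ | ∀ G ∈ I, ev a G = 0}
  let S : Set (Ideal (MvPolynomial (Fin 2) ℝ)) := {I | ¬ (V I).Countable}
  have hS : S.Nonempty := by
    refine ⟨⊥, ?_⟩
    intro h
    apply hΦ
    refine h.mono ?_
    intro a ha
    refine ⟨ha, ?_⟩
    intro G hG
    have : G = 0 := by simpa using hG
    simp [ev, this]
  obtain ⟨I, hI, hmax⟩ := (wellFounded_gt (α := Ideal (MvPolynomial (Fin 2) ℝ))).has_min S hS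
  refine ⟨V I, fun a ha => ha.1, hI, ?_⟩
  intro G
  by_cases hG : {a ∈ V I | ev a G = 0}.Countable
  · exact Or.inr hG
  · left
    have hmem : I ⊔ Ideal.span {G} ∈ S := by
      intro hc
      apply hG
      refine hc.mono ?_
      rintro a ⟨ha, haG⟩
      refine ⟨ha.1, ?_⟩
      intro F hF
      have : I ⊔ Ideal.span {G} ≤ RingHom.ker (MvPolynomial.eval (![a.1, a.2] : Fin 2 → ℝ)) := by
        refine sup_le ?_ ?_
        · intro H hH
          exact ha.2 H hH
        · rw [Ideal.span_le]
          intro H hH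
          have : H = G := by simpa using hH
          subst this
          exact haG
      exact this hF
    have hnot := hmax _ hmem
    have hle : I ≤ I ⊔ Ideal.span {G} := le_sup_left
    have heq : I = I ⊔ Ideal.span {G} := by
      by_contra hne
      exact hnot (lt_of_le_of_ne hle hne)
    have hGI : G ∈ I := by
      rw [heq]
      exact Ideal.mem_sup_right (Ideal.subset_span rfl)
    intro a ha
    exact ha.2 G hGI

/-- polynomial functions of `N` points -/
noncomputable def evN {N : ℕ} (x : Fin N → ℝ × ℝ) (F : MvPolynomial (Fin N × Fin 2) ℝ) : ℝ :=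
  MvPolynomial.eval (fun p => (![(x p.1).1, (x p.1).2] : Fin 2 → ℝ) p.2) F

lemma evN_update {N : ℕ} (F : MvPolynomial (Fin N × Fin 2) ℝ) (x : Fin N → ℝ × ℝ) (k : Fin N) :
    ∃ G : MvPolynomial (Fin 2) ℝ, ∀ a : ℝ × ℝ, evN (Function.update x k a) F = ev a G := by
  classical
  refine ⟨MvPolynomial.bind₁ (fun p : Fin N × Fin 2 => if p.1 = k then X p.2 else
    C ((![(x p.1).1, (x p.1).2] : Fin 2 → ℝ) p.2)) F, ?_⟩
  intro a
  unfold evN ev
  rw [MvPolynomial.eval, MvPolynomial.eval, MvPolynomial.eval₂Hom_bind₁]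
  congr 2
  funext p
  by_cases hp : p.1 = k
  · simp [hp]
  · simp [hp, Function.update_of_ne hp]

theorem exists_generic {N : ℕ} (A : Set (ℝ × ℝ)) (hA : ¬ A.Countable) (hT : Thin A)
    {ι : Type} [Countable ι] (F : ι → MvPolynomial (Fin N × Fin 2) ℝ)
    (hF : ∀ i, ∃ y : Fin N → ℝ × ℝ, (∀ j, y j ∈ A) ∧ evN y (F i) ≠ 0) :
    ∃ x : Fin N → ℝ × ℝ, (∀ j, x j ∈ A) ∧ ∀ i, evN x (F i) ≠ 0 := by
  classical
  have key : ∀ k : ℕ, k ≤ N → ∃ x : Fin N → ℝ × ℝ, (∀ j : Fin N, j.1 < k → x j ∈ A) ∧
      ∀ i, ∃ y : Fin N → ℝ × ℝ, (∀ j, y j ∈ A) ∧ (∀ j : Fin N, j.1 < k → y j = x j) ∧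
        evN y (F i) ≠ 0 := by
    intro k
    induction k with
    | zero =>
      intro _
      refine ⟨fun _ => (0, 0), fun j hj => absurd hj (by omega), fun i => ?_⟩
      obtain ⟨y, hy, hy'⟩ := hF i
      exact ⟨y, hy, fun j hj => absurd hj (by omega), hy'⟩
    | succ k ih =>
      intro hk
      obtain ⟨x, hx, hxF⟩ := ih (by omega)
      let kk : Fin N := ⟨k, by omega⟩
      choose y hyA hyx hyF using hxF
      choose G hG using fun i => evN_update (F i) (y i) kk
      have hcount : ∀ i, {a ∈ A | ev a (G i) = 0}.Countable := by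
        intro i
        rcases hT (G i) with h | h
        · exfalso
          apply hyF i
          have h1 := h (y i kk) (hyA i kk)
          rw [← hG i, Function.update_eq_self] at h1
          exact h1
        · exact h
      have hex : ∃ a ∈ A, ∀ i, ev a (G i) ≠ 0 := by
        by_contra hcon
        push Not at hcon
        apply hA
        refine (Set.countable_iUnion hcount).mono ?_
        intro a ha
        obtain ⟨i, hi⟩ := hcon a ha
        exact Set.mem_iUnion.2 ⟨i, ha, hi⟩
      obtain ⟨a, haA, ha⟩ := hex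
      refine ⟨Function.update x kk a, ?_, ?_⟩
      · intro j hj
        by_cases hjk : j = kk
        · subst hjk; simpa using haA
        · rw [Function.update_of_ne hjk]
          apply hx
          have : j.1 ≠ k := fun h => hjk (Fin.ext h)
          omega
      · intro i
        refine ⟨Function.update (y i) kk a, ?_, ?_, ?_⟩
        · intro j
          by_cases hjk : j = kk
          · subst hjk; simpa using haA
          · rw [Function.update_of_ne hjk]; exact hyA i j
        · intro j hj
          by_cases hjk : j = kk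
          · subst hjk; simp
          · rw [Function.update_of_ne hjk, Function.update_of_ne hjk]
            apply hyx
            have : j.1 ≠ k := fun h => hjk (Fin.ext h)
            omega
        · rw [hG i]; exact ha i
  obtain ⟨x, hx, hxF⟩ := key N le_rfl
  refine ⟨x, fun j => hx j j.2, fun i => ?_⟩
  obtain ⟨y, _, hyx, hyF⟩ := hxF i
  have : y = x := funext fun j => hyx j j.2
  rwa [← this]

end Pool.Agent.H535R2.EOC
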