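import Mathlib

set_option autoImplicit false

/-! Words in two affine maps: the polynomials `Q_w(X,Y)`. -/

namespace Pool.Agent.H535R2.EOC

open Polynomial

/-- `Q_w` for a word in `true` (ratio `X`) and `false` (ratio `Y`). -/
def Q (X Y : ℝ) : List Bool → ℝ
  | [] => 0
  | true :: w => X * Q X Y w + 1
  | false :: w => Y * Q X Y w

/-- the polynomial version, outer variable `X`, inner variable `Y` -/
noncomputable def QP : List Bool → Polynomial (Polynomial ℝ)
  | [] => 0
  | true :: w => X * QP w + 1
  | false :: w => C X * QP w

lemma QP_eval (x y : ℝ) (w : List Bool) :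
    ((QP w).map (evalRingHom y)).eval x = Q x y w := by
  induction w with
  | nil => simp [QP, Q]
  | cons b w ih =>
    cases b
    · simp only [QP, Q, Polynomial.map_mul, Polynomial.map_C, coe_evalRingHom, eval_X, eval_mul,
        eval_C, ih]
    · simp only [QP, Q, Polynomial.map_add, Polynomial.map_mul, Polynomial.map_X,
        Polynomial.map_one, eval_add, eval_mul, eval_X, eval_one, ih]

lemma QP_coeff0_coeff0 (w : List Bool) (b : Bool) :
    ((QP (b :: w)).coeff 0).coeff 0 = if b = true then 1 else 0 := by
  cases b <;> simp [QP]

lemma QP_inj : ∀ (u v : List Bool), u.length = v.length → QP u = QP v → u = v := by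
  intro u
  induction u with
  | nil =>
    intro v hl _
    cases v with
    | nil => rfl
    | cons b v => simp at hl
  | cons a u ih =>
    intro v hl h
    cases v with
    | nil => simp at hl
    | cons b v =>
      have hab : a = b := by
        have h0 := congrArg (fun p => (p.coeff 0).coeff 0) h
        simp only [QP_coeff0_coeff0] at h0
        cases a <;> cases b <;> simp_all
      subst hab
      have hl' : u.length = v.length := by simpa using hl
      have : QP u = QP v := by
        cases a
        · simp only [QP] at h
          have hX : (C (X : Polynomial ℝ) : Polynomial (Polynomial ℝ)) ≠ 0 := by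
            simp [Polynomial.X_ne_zero]
          exact mul_left_cancel₀ hX h
        · simp only [QP] at h
          have h' : (X : Polynomial (Polynomial ℝ)) * QP u = X * QP v := by
            exact add_right_cancel h
          exact mul_left_cancel₀ Polynomial.X_ne_zero h'
      rw [ih v hl' this]

/-- Case (i): enough pairs of ratios. -/
lemma words_eq_of_rich (u v : List Bool) (hl : u.length = v.length) (B : Set ℝ) (hB : B.Infinite)
    (h : ∀ y ∈ B, {x : ℝ | Q x y u = Q x y v}.Infinite) : u = v := by
  apply QP_inj u v hl
  have h1 : ∀ y ∈ B, ((QP u - QP v).map (evalRingHom y)) = 0 := by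
    intro y hy
    apply Polynomial.eq_zero_of_infinite_isRoot
    refine (h y hy).mono ?_
    intro x hx
    simp only [Set.mem_setOf_eq, IsRoot.def, Polynomial.map_sub, eval_sub, QP_eval]
    have : Q x y u = Q x y v := hx
    linarith
  have h2 : QP u - QP v = 0 := by
    ext1 n
    rw [coeff_zero]
    apply Polynomial.eq_zero_of_infinite_isRoot
    refine hB.mono ?_
    intro y hy
    have := congrArg (fun p => p.coeff n) (h1 y hy)
    simp only [coeff_map, coeff_zero, coe_evalRingHom] at this
    simpa [IsRoot.def] using this
  exact sub_eq_zero.mp h2

lemma Q_bound (R : ℝ) (hR : |R| < 1 / 2) : ∀ (u v : List Bool), u.length = v.length →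
    |Q R R u - Q R R v| < 2 := by
  intro u
  induction u with
  | nil =>
    intro v hl
    cases v with
    | nil => simp [Q]
    | cons b v => simp at hl
  | cons a u ih =>
    intro v hl
    cases v with
    | nil => simp at hl
    | cons b v =>
      have hl' : u.length = v.length := by simpa using hl
      have h := ih v hl'
      have key : |R * (Q R R u - Q R R v)| < 1 := by
        rw [abs_mul]
        nlinarith [abs_nonneg R, abs_nonneg (Q R R u - Q R R v)]
      rw [abs_lt] at key ⊢
      cases a <;> cases b <;> simp only [Q] <;> constructor <;> nlinarith [key.1, key.2]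

/-- Case (ii): equal ratios smaller than `1/2`. -/
lemma words_eq_of_small (R : ℝ) (hR : |R| < 1 / 2) (hR0 : R ≠ 0) : ∀ (u v : List Bool),
    u.length = v.length → Q R R u = Q R R v → u = v := by
  intro u
  induction u with
  | nil =>
    intro v hl _
    cases v with
    | nil => rfl
    | cons b v => simp at hl
  | cons a u ih =>
    intro v hl h
    cases v with
    | nil => simp at hl
    | cons b v =>
      have hl' : u.length = v.length := by simpa using hl
      have hb := Q_bound R hR u v hl'
      have key : |R * (Q R R u - Q R R v)| < 1 := by
        rw [abs_mul]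
        nlinarith [abs_nonneg R, abs_nonneg (Q R R u - Q R R v)]
      rw [abs_lt] at key
      cases a <;> cases b <;> simp only [Q] at h
      · rw [ih v hl' (mul_left_cancel₀ hR0 h)]
      · exfalso; nlinarith [key.1, key.2]
      · exfalso; nlinarith [key.1, key.2]
      · have h' : R * Q R R u = R * Q R R v := by linarith
        rw [ih v hl' (mul_left_cancel₀ hR0 h')]

end Pool.Agent.H535R2.EOC
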