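import Mathlib
import Pool.Agent.H535R2.EOC.Words
import Pool.Agent.H535R2.EOC.Thin

set_option autoImplicit false

/-! Generic tuples of maps `φ_j ∘ h` generate a free semigroup. -/

namespace Pool.Agent.H535R2.EOC

/-- composition of the maps `x ↦ r i x + b i` along a word (as in the frozen statement) -/
def wmap {N : ℕ} (r b : Fin N → ℝ) (w : List (Fin N)) : ℝ → ℝ :=
  List.foldr (fun i (g : ℝ → ℝ) => fun x : ℝ => r i * g x + b i) (fun x : ℝ => x) w

def rat {N : ℕ} (r : Fin N → ℝ) : List (Fin N) → ℝ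
  | [] => 1
  | i :: w => r i * rat r w

def tr {N : ℕ} (r b : Fin N → ℝ) : List (Fin N) → ℝ
  | [] => 0
  | i :: w => r i * tr r b w + b i

lemma wmap_eq {N : ℕ} (r b : Fin N → ℝ) (w : List (Fin N)) (x : ℝ) :
    wmap r b w x = rat r w * x + tr r b w := by
  induction w with
  | nil => simp [wmap, rat, tr]
  | cons i w ih =>
    have : wmap r b (i :: w) x = r i * wmap r b w x + b i := rfl
    rw [this, ih]
    simp only [rat, tr]
    ring

lemma wmap_eq_iff {N : ℕ} (r b : Fin N → ℝ) (u v : List (Fin N)) :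
    wmap r b u = wmap r b v ↔ rat r u = rat r v ∧ tr r b u = tr r b v := by
  constructor
  · intro h
    have h0 := congrFun h 0
    have h1 := congrFun h 1
    rw [wmap_eq, wmap_eq] at h0 h1
    constructor <;> linarith
  · rintro ⟨h1, h2⟩
    funext x
    rw [wmap_eq, wmap_eq, h1, h2]

open MvPolynomial in
noncomputable def RP {N : ℕ} (ρ : ℝ) : List (Fin N) → MvPolynomial (Fin N × Fin 2) ℝ
  | [] => 1
  | i :: w => (X (i, 0) * C ρ) * RP ρ w

open MvPolynomial in
noncomputable def TP {N : ℕ} (ρ γ : ℝ) : List (Fin N) → MvPolynomial (Fin N × Fin 2) ℝ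
  | [] => 0
  | i :: w => (X (i, 0) * C ρ) * TP ρ γ w + (X (i, 0) * C γ + X (i, 1))

lemma evN_RP {N : ℕ} (ρ : ℝ) (x : Fin N → ℝ × ℝ) (w : List (Fin N)) :
    evN x (RP ρ w) = rat (fun j => (x j).1 * ρ) w := by
  induction w with
  | nil => simp [evN, RP, rat]
  | cons i w ih =>
    unfold evN at ih
    simp [evN, RP, rat, ih]

lemma evN_TP {N : ℕ} (ρ γ : ℝ) (x : Fin N → ℝ × ℝ) (w : List (Fin N)) :
    evN x (TP ρ γ w) = tr (fun j => (x j).1 * ρ) (fun j => (x j).1 * γ + (x j).2) w := by
  induction w with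
  | nil => simp [evN, TP, tr]
  | cons i w ih =>
    unfold evN at ih
    simp [evN, TP, tr, ih]

noncomputable def FP {N : ℕ} (ρ γ : ℝ) (u v : List (Fin N)) : MvPolynomial (Fin N × Fin 2) ℝ :=
  (RP ρ u - RP ρ v) ^ 2 + (TP ρ γ u - TP ρ γ v) ^ 2

lemma evN_FP {N : ℕ} (ρ γ : ℝ) (x : Fin N → ℝ × ℝ) (u v : List (Fin N)) :
    evN x (FP ρ γ u v) = 0 ↔
      wmap (fun j => (x j).1 * ρ) (fun j => (x j).1 * γ + (x j).2) u =
        wmap (fun j => (x j).1 * ρ) (fun j => (x j).1 * γ + (x j).2) v := by
  rw [wmap_eq_iff, ← evN_RP, ← evN_RP, ← evN_TP, ← evN_TP]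
  have : evN x (FP ρ γ u v) = (evN x (RP ρ u) - evN x (RP ρ v)) ^ 2 +
      (evN x (TP ρ γ u) - evN x (TP ρ γ v)) ^ 2 := by
    simp [evN, FP]
  rw [this]
  constructor
  · intro h
    have h1 : (evN x (RP ρ u) - evN x (RP ρ v)) ^ 2 = 0 := by nlinarith [sq_nonneg (evN x (RP ρ u) - evN x (RP ρ v)), sq_nonneg (evN x (TP ρ γ u) - evN x (TP ρ γ v))]
    have h2 : (evN x (TP ρ γ u) - evN x (TP ρ γ v)) ^ 2 = 0 := by nlinarith [sq_nonneg (evN x (RP ρ u) - evN x (RP ρ v)), sq_nonneg (evN x (TP ρ γ u) - evN x (TP ρ γ v))]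
    constructor
    · have := pow_eq_zero_iff (two_ne_zero) |>.1 h1
      linarith
    · have := pow_eq_zero_iff (two_ne_zero) |>.1 h2
      linarith
  · rintro ⟨h1, h2⟩
    rw [h1, h2]; ring

/-- composition along a Boolean word -/
def bmap (X s Y t : ℝ) : List Bool → ℝ → ℝ
  | [], z => z
  | true :: w, z => X * bmap X s Y t w z + s
  | false :: w, z => Y * bmap X s Y t w z + t

lemma bmap_fix (X s Y t q : ℝ) (hq : Y * q + t = q) (w : List Bool) :
    bmap X s Y t w q = q + (X * q + s - q) * Q X Y w := by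
  induction w with
  | nil => simp [bmap, Q]
  | cons b w ih =>
    cases b
    · simp only [bmap, Q, ih]
      linear_combination hq
    · simp only [bmap, Q, ih]
      ring

lemma wmap_collapse {N : ℕ} (l : Fin N) (a b : ℝ × ℝ) (ρ γ : ℝ) (w : List (Fin N)) (z : ℝ) :
    wmap (fun j => ((if j = l then a else b : ℝ × ℝ)).1 * ρ)
      (fun j => ((if j = l then a else b : ℝ × ℝ)).1 * γ + ((if j = l then a else b : ℝ × ℝ)).2) w z =
    bmap (a.1 * ρ) (a.1 * γ + a.2) (b.1 * ρ) (b.1 * γ + b.2) (w.map (fun j => decide (j = l))) z := by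
  induction w with
  | nil => rfl
  | cons i w ih =>
    by_cases h : i = l
    · subst h
      simp only [List.map_cons, decide_true, bmap, ← ih]
      simp [wmap]
    · simp only [List.map_cons, h, decide_false, bmap, ← ih]
      simp [wmap, h]

lemma exists_letter {N : ℕ} (u v : List (Fin N)) (h : u ≠ v) (hl : u.length = v.length) :
    ∃ l : Fin N, u.map (fun j => decide (j = l)) ≠ v.map (fun j => decide (j = l)) := by
  by_contra hcon
  push Not at hcon
  apply h
  apply List.ext_getElem hl
  intro i h1 h2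
  have := hcon (u[i])
  have h3 : (u.map (fun j => decide (j = u[i])))[i]'(by simpa using h1) =
      (v.map (fun j => decide (j = u[i])))[i]'(by simpa using h2) := by
    congr 1
  simp at h3
  exact h3.symm

lemma rat_const {N : ℕ} (R : ℝ) (w : List (Fin N)) : rat (fun _ => R) w = R ^ w.length := by
  induction w with
  | nil => simp [rat]
  | cons i w ih => simp [rat, ih, pow_succ, mul_comm]

theorem exists_free (A : Set (ℝ × ℝ)) (hA : ¬ A.Countable) (hT : Thin A)
    (h0 : ∀ a ∈ A, a.1 ≠ 0 ∧ |a.1| < 1) (ρ γ : ℝ) (hρ0 : ρ ≠ 0) (hρ1 : |ρ| ≤ 1)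
    (H : ((∃ a ∈ A, ∃ b ∈ A, a.1 ≠ b.1) ∧ ¬ ∃ q : ℝ, ∀ a ∈ A, a.1 * (ρ * q + γ) + a.2 = q) ∨
      (∃ r0 : ℝ, (∀ a ∈ A, a.1 = r0) ∧ |r0 * ρ| < 1 / 2)) (N : ℕ) :
    ∃ x : Fin N → ℝ × ℝ, (∀ j, x j ∈ A) ∧ ∀ u v : List (Fin N),
      wmap (fun j => (x j).1 * ρ) (fun j => (x j).1 * γ + (x j).2) u =
        wmap (fun j => (x j).1 * ρ) (fun j => (x j).1 * γ + (x j).2) v → u = v := by
  have hAne : A.Nonempty := by
    by_contra hne
    rw [Set.not_nonempty_iff_eq_empty] at hne
    exact hA (hne ▸ Set.countable_empty)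
  obtain ⟨x, hxA, hx⟩ := exists_generic (N := N) A hA hT
    (ι := {p : List (Fin N) × List (Fin N) // p.1 ≠ p.2}) (fun p => FP ρ γ p.1.1 p.1.2) (by
      rintro ⟨⟨u, v⟩, huv⟩
      by_contra hcon
      push Not at hcon
      have hcon' : ∀ y : Fin N → ℝ × ℝ, (∀ j, y j ∈ A) →
          wmap (fun j => (y j).1 * ρ) (fun j => (y j).1 * γ + (y j).2) u =
            wmap (fun j => (y j).1 * ρ) (fun j => (y j).1 * γ + (y j).2) v :=
        fun y hy => (evN_FP ρ γ y u v).1 (hcon y hy)
      apply huv
      -- lengths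
      have hlen : u.length = v.length := by
        obtain ⟨a, ha⟩ := hAne
        have h1 := (wmap_eq_iff _ _ _ _).1 (hcon' (fun _ => a) (fun _ => ha))
        have h2 := h1.1
        rw [rat_const, rat_const] at h2
        have h3 : |a.1 * ρ| ^ u.length = |a.1 * ρ| ^ v.length := by
          rw [← abs_pow, ← abs_pow, h2]
        have hpos : 0 < |a.1 * ρ| := abs_pos.2 (mul_ne_zero (h0 a ha).1 hρ0)
        have hlt : |a.1 * ρ| < 1 := by
          rw [abs_mul]
          calc |a.1| * |ρ| ≤ |a.1| * 1 := by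
                exact mul_le_mul_of_nonneg_left hρ1 (abs_nonneg _)
            _ < 1 := by simpa using (h0 a ha).2
        exact pow_right_injective₀ hpos hlt.ne h3
      by_contra huv'
      obtain ⟨l, hl⟩ := exists_letter u v huv' hlen
      apply hl
      set U := u.map (fun j => decide (j = l)) with hU
      set V := v.map (fun j => decide (j = l)) with hV
      have hUV : U.length = V.length := by simp [hU, hV, hlen]
      -- the two letter relation
      have hb : ∀ a ∈ A, ∀ b ∈ A, ∀ z, bmap (a.1 * ρ) (a.1 * γ + a.2) (b.1 * ρ) (b.1 * γ + b.2) U z =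
          bmap (a.1 * ρ) (a.1 * γ + a.2) (b.1 * ρ) (b.1 * γ + b.2) V z := by
        intro a ha b hb z
        have h1 := congrFun (hcon' (fun j => if j = l then a else b) (by
          intro j
          by_cases hj : j = l
          · simpa [hj] using ha
          · simpa [hj] using hb)) z
        rw [wmap_collapse, wmap_collapse] at h1
        exact h1
      have hq : ∀ a ∈ A, ∀ b ∈ A, ∀ q, b.1 * ρ * q + (b.1 * γ + b.2) = q →
          a.1 * ρ * q + (a.1 * γ + a.2) - q ≠ 0 → Q (a.1 * ρ) (b.1 * ρ) U = Q (a.1 * ρ) (b.1 * ρ) V := by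
        intro a ha b hb' q hq hne
        have h1 := hb a ha b hb' q
        rw [bmap_fix _ _ _ _ _ hq, bmap_fix _ _ _ _ _ hq] at h1
        exact mul_left_cancel₀ hne (by linarith)
      have hfix : ∀ b ∈ A, ∃ q, b.1 * ρ * q + (b.1 * γ + b.2) = q := by
        intro b hb'
        have hlt : |b.1 * ρ| < 1 := by
          rw [abs_mul]
          calc |b.1| * |ρ| ≤ |b.1| * 1 := by
                exact mul_le_mul_of_nonneg_left hρ1 (abs_nonneg _)
            _ < 1 := by simpa using (h0 b hb').2
        have hne : 1 - b.1 * ρ ≠ 0 := by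
          have := (abs_lt.1 hlt).2
          linarith
        refine ⟨(b.1 * γ + b.2) / (1 - b.1 * ρ), ?_⟩
        field_simp
        ring
      rcases H with ⟨⟨a1, ha1, a2, ha2, h12⟩, hnq⟩ | ⟨r0, hr0, hr⟩
      · -- fibres of the ratio are countable
        have hfib : ∀ r : ℝ, {a ∈ A | a.1 = r}.Countable := by
          intro r
          rcases hT (MvPolynomial.X 0 - MvPolynomial.C r) with h | h
          · exfalso
            apply h12
            have e1 := h a1 ha1
            have e2 := h a2 ha2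
            simp [ev] at e1 e2
            linarith
          · refine h.mono ?_
            rintro a ⟨ha, har⟩
            refine ⟨ha, ?_⟩
            simp [ev, har]
        have hbig : ∀ B : Set (ℝ × ℝ), B ⊆ A → ¬ B.Countable →
            ((fun a : ℝ × ℝ => a.1 * ρ) '' B).Infinite := by
          intro B hBA hB hfin
          apply hB
          refine ((hfin.countable.biUnion (t := fun y _ => {a ∈ A | a.1 = y / ρ})
            (fun y _ => hfib (y / ρ)))).mono ?_
          intro a ha
          refine Set.mem_biUnion (Set.mem_image_of_mem _ ha) ⟨hBA ha, ?_⟩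
          field_simp
        apply words_eq_of_rich U V hUV ((fun a : ℝ × ℝ => a.1 * ρ) '' A) (hbig A subset_rfl hA)
        rintro y ⟨b, hbA, rfl⟩
        obtain ⟨q, hqb⟩ := hfix b hbA
        have hcount : {a ∈ A | a.1 * ρ * q + (a.1 * γ + a.2) - q = 0}.Countable := by
          rcases hT (MvPolynomial.X 0 * MvPolynomial.C (ρ * q + γ) + MvPolynomial.X 1 -
            MvPolynomial.C q) with h | h
          · exfalso
            apply hnq
            refine ⟨q, fun a ha => ?_⟩
            have := h a ha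
            simp [ev] at this
            linarith
          · refine h.mono ?_
            rintro a ⟨ha, har⟩
            refine ⟨ha, ?_⟩
            simp [ev]
            linarith
        have hB : ¬ {a ∈ A | a.1 * ρ * q + (a.1 * γ + a.2) - q ≠ 0}.Countable := by
          intro hc
          apply hA
          refine (hc.union hcount).mono ?_
          intro a ha
          by_cases h : a.1 * ρ * q + (a.1 * γ + a.2) - q = 0
          · exact Or.inr ⟨ha, h⟩
          · exact Or.inl ⟨ha, h⟩
        refine (hbig _ (fun a ha => ha.1) hB).mono ?_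
        rintro x ⟨a, ⟨haA, hane⟩, rfl⟩
        exact hq a haA b hbA q hqb hane
      · -- constant ratio
        have hnt : A.Nontrivial := by
          by_contra hnt
          rw [Set.not_nontrivial_iff] at hnt
          exact hA hnt.countable
        obtain ⟨a, ha, b, hb', hab⟩ := hnt
        obtain ⟨q, hqb⟩ := hfix b hb'
        have hne : a.1 * ρ * q + (a.1 * γ + a.2) - q ≠ 0 := by
          intro h
          apply hab
          have e1 : a.1 = b.1 := by rw [hr0 a ha, hr0 b hb']
          apply Prod.ext e1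
          rw [e1] at h
          linarith
        have h1 := hq a ha b hb' q hqb hne
        rw [hr0 a ha, hr0 b hb'] at h1
        have hr00 : r0 * ρ ≠ 0 := by
          have := (h0 a ha).1
          rw [hr0 a ha] at this
          exact mul_ne_zero this hρ0
        exact words_eq_of_small (r0 * ρ) hr hr00 U V hUV h1)
  refine ⟨x, hxA, ?_⟩
  intro u v huv
  by_contra hne
  exact hx ⟨(u, v), hne⟩ ((evN_FP ρ γ x u v).2 huv)

end Pool.Agent.H535R2.EOC
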