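import Mathlib
import Pool.Agent.H535R2.EOC.Free

set_option autoImplicit false

/-! The exact overlaps conjecture for finite free families implies the statement for uncountable
compact families (`S04139`). -/

namespace Pool.Agent.H535R2.EOC

open Set Filter Topology

/-- the statement of `S04273` -/
def ExactOverlaps : Prop :=
    ∀ (n : ℕ) (r b : Fin n → ℝ), 0 < n →
      (∀ i, r i ≠ 0 ∧ |r i| < 1) →
      (∀ w w' : List (Fin n),
        List.foldr (fun i (g : ℝ → ℝ) => fun x : ℝ => r i * g x + b i) (fun x : ℝ => x) w =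
          List.foldr (fun i (g : ℝ → ℝ) => fun x : ℝ => r i * g x + b i) (fun x : ℝ => x) w' →
        w = w') →
      ∀ X : Set ℝ, X.Nonempty → IsCompact X →
        X = ⋃ i, (fun x : ℝ => r i * x + b i) '' X →
        ∀ s : ℝ, (∑ i, |r i| ^ s) = 1 →
          dimH X = ENNReal.ofReal (min 1 s)

/-- attractor of a finite subfamily -/
theorem sub_attractor {N : ℕ} (hN : 0 < N) (r b : Fin N → ℝ) (X : Set ℝ) (hX : IsCompact X)
    (hne : X.Nonempty) (hsub : ∀ j, ∀ x ∈ X, r j * x + b j ∈ X) :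
    ∃ Y ⊆ X, Y.Nonempty ∧ IsCompact Y ∧ Y = ⋃ j, (fun x : ℝ => r j * x + b j) '' Y := by
  classical
  have hcont : ∀ j, Continuous (fun x : ℝ => r j * x + b j) := fun j => by fun_prop
  let Z : ℕ → Set ℝ := fun n => Nat.rec X (fun _ S => ⋃ j, (fun x : ℝ => r j * x + b j) '' S) n
  have hZ0 : Z 0 = X := rfl
  have hZs : ∀ n, Z (n + 1) = ⋃ j, (fun x : ℝ => r j * x + b j) '' (Z n) := fun n => rfl
  have hZc : ∀ n, IsCompact (Z n) := by
    intro n
    induction n with
    | zero => exact hX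
    | succ n ih => rw [hZs]; exact isCompact_iUnion fun j => ih.image (hcont j)
  have hZn : ∀ n, (Z n).Nonempty := by
    intro n
    induction n with
    | zero => exact hne
    | succ n ih =>
      obtain ⟨x, hx⟩ := ih
      rw [hZs]
      exact ⟨_, mem_iUnion.2 ⟨⟨0, hN⟩, mem_image_of_mem _ hx⟩⟩
  have hZd : ∀ n, Z (n + 1) ⊆ Z n := by
    intro n
    induction n with
    | zero =>
      rw [hZs, hZ0]
      refine iUnion_subset fun j => ?_
      rintro _ ⟨x, hx, rfl⟩
      exact hsub j x hx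
    | succ n ih =>
      rw [hZs (n + 1), hZs n]
      exact iUnion_mono fun j => image_mono ih
  have hanti : Antitone Z := antitone_nat_of_succ_le hZd
  refine ⟨⋂ n, Z n, ?_, ?_, ?_, ?_⟩
  · exact iInter_subset _ 0
  · exact IsCompact.nonempty_iInter_of_sequence_nonempty_isCompact_isClosed Z hZd hZn (hZc 0)
      (fun n => (hZc n).isClosed)
  · exact (hZc 0).of_isClosed_subset (isClosed_iInter fun n => (hZc n).isClosed) (iInter_subset _ 0)
  · apply Subset.antisymm
    · intro y hy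
      by_contra hcon
      rw [mem_iUnion] at hcon
      push Not at hcon
      have hj : ∀ j, ∃ n, ¬ (Z n ∩ (fun x : ℝ => r j * x + b j) ⁻¹' {y}).Nonempty := by
        intro j
        by_contra hcon2
        push Not at hcon2
        have := IsCompact.nonempty_iInter_of_sequence_nonempty_isCompact_isClosed
          (fun n => Z n ∩ (fun x : ℝ => r j * x + b j) ⁻¹' {y})
          (fun n => inter_subset_inter_left _ (hZd n)) (fun n => hcon2 n)
          ((hZc 0).inter_right (isClosed_singleton.preimage (hcont j)))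
          (fun n => (hZc n).isClosed.inter (isClosed_singleton.preimage (hcont j)))
        obtain ⟨x, hx⟩ := this
        rw [mem_iInter] at hx
        exact hcon j ⟨x, mem_iInter.2 fun n => (hx n).1, (hx 0).2⟩
      choose m hm using hj
      have hy' := mem_iInter.1 hy ((Finset.univ.sup m) + 1)
      rw [hZs, mem_iUnion] at hy'
      obtain ⟨j, x, hx, hxy⟩ := hy'
      apply hm j
      exact ⟨x, hanti (Finset.le_sup (Finset.mem_univ j)) hx, hxy⟩
    · refine iUnion_subset fun j => ?_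
      rintro _ ⟨x, hx, rfl⟩
      refine mem_iInter.2 fun n => ?_
      apply hZd n
      rw [hZs]
      exact mem_iUnion.2 ⟨j, mem_image_of_mem _ (mem_iInter.1 hx n)⟩

/-- the similarity dimension is at least one -/
theorem exists_dim {N : ℕ} (hN : 0 < N) (r : Fin N → ℝ) (h0 : ∀ i, r i ≠ 0 ∧ |r i| < 1)
    (h1 : 1 ≤ ∑ i, |r i|) : ∃ s : ℝ, 1 ≤ s ∧ (∑ i, |r i| ^ s) = 1 := by
  have hcont : Continuous (fun s : ℝ => ∑ i, |r i| ^ s) := by
    refine continuous_finsetSum _ fun i _ => ?_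
    exact Real.continuous_const_rpow (by simpa using (h0 i).1)
  have htend : Tendsto (fun s : ℝ => ∑ i, |r i| ^ s) atTop (𝓝 0) := by
    have : (0 : ℝ) = ∑ i : Fin N, (0 : ℝ) := by simp
    rw [this]
    refine tendsto_finsetSum _ fun i _ => ?_
    have hlt := (h0 i).2
    have hpos : 0 < |r i| := abs_pos.2 (h0 i).1
    exact tendsto_rpow_atTop_of_base_lt_one _ (by linarith) hlt
  have hev := (htend.eventually (gt_mem_nhds (zero_lt_one))).and (eventually_ge_atTop (1 : ℝ))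
  obtain ⟨S, hS, hS1⟩ := hev.exists
  have hg1 : 1 ≤ ∑ i, |r i| ^ (1 : ℝ) := by simpa using h1
  have := intermediate_value_Icc' hS1 hcont.continuousOn
  obtain ⟨s, hs, hs1⟩ := this ⟨hS.le, hg1⟩
  exact ⟨s, hs.1, hs1⟩

theorem imp (hEO : ExactOverlaps) :
    ∀ (Φ : Set (ℝ × ℝ)), IsCompact Φ → ¬ Φ.Countable →
      (∀ p ∈ Φ, p.1 ≠ 0 ∧ |p.1| < 1) →
      ∀ X : Set ℝ, IsCompact X → X.Nonempty →
        X = ⋃ p ∈ Φ, (fun x : ℝ => p.1 * x + p.2) '' X →
        (∃ x : ℝ, X = {x}) ∨ dimH X = 1 := by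
  intro Φ hΦ hunc hp X hXc hXne hX
  by_cases hsing : ∃ x : ℝ, X = {x}
  · exact Or.inl hsing
  right
  have hmap : ∀ p ∈ Φ, ∀ x ∈ X, p.1 * x + p.2 ∈ X := by
    intro p hp x hx
    rw [hX]
    exact mem_iUnion₂.2 ⟨p, hp, mem_image_of_mem _ hx⟩
  -- no common fixed point
  have hfix : ∀ q : ℝ, ∃ p ∈ Φ, p.1 * q + p.2 ≠ q := by
    intro q
    by_contra hcon
    push Not at hcon
    apply hsing
    obtain ⟨x, hx, hmax⟩ := hXc.exists_isMaxOn hXne
      (f := fun x : ℝ => |x - q|) (by fun_prop)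
    refine ⟨q, ?_⟩
    have hx0 : |x - q| = 0 := by
      have hx' := hx
      rw [hX] at hx'
      obtain ⟨p, hpΦ, y, hy, hyx⟩ := mem_iUnion₂.1 hx'
      have h1 : x - q = p.1 * (y - q) := by
        have := hcon p hpΦ
        simp only at hyx
        rw [← hyx]
        linarith
      have h2 : |y - q| ≤ |x - q| := hmax hy
      have h3 : |x - q| = |p.1| * |y - q| := by rw [h1, abs_mul]
      have h4 := (hp p hpΦ).2
      by_contra hne
      have hpos : 0 < |x - q| := lt_of_le_of_ne (abs_nonneg _) (Ne.symm hne)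
      nlinarith [abs_nonneg (y - q), abs_nonneg p.1]
    ext y
    simp only [mem_singleton_iff]
    constructor
    · intro hy
      have h2 : |y - q| ≤ |x - q| := hmax hy
      rw [hx0] at h2
      have := abs_nonpos_iff.1 h2
      linarith
    · rintro rfl
      have : x = y := by
        have := abs_eq_zero.1 hx0
        linarith
      rw [← this]; exact hx
  obtain ⟨A, hAΦ, hA, hT⟩ := exists_thin Φ hunc
  have h0 : ∀ a ∈ A, a.1 ≠ 0 ∧ |a.1| < 1 := fun a ha => hp a (hAΦ ha)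
  have hAne : A.Nonempty := by
    by_contra hne
    rw [Set.not_nonempty_iff_eq_empty] at hne
    exact hA (hne ▸ Set.countable_empty)
  -- choice of `h`
  obtain ⟨ρ, γ, hρ0, hρ1, hhX, H⟩ : ∃ ρ γ : ℝ, ρ ≠ 0 ∧ |ρ| ≤ 1 ∧ (∀ x ∈ X, ρ * x + γ ∈ X) ∧
      (((∃ a ∈ A, ∃ b ∈ A, a.1 ≠ b.1) ∧ ¬ ∃ q : ℝ, ∀ a ∈ A, a.1 * (ρ * q + γ) + a.2 = q) ∨
      (∃ r0 : ℝ, (∀ a ∈ A, a.1 = r0) ∧ |r0 * ρ| < 1 / 2)) := by
    by_cases hr : ∃ a ∈ A, ∃ b ∈ A, a.1 ≠ b.1
    · by_cases hq : ∃ q : ℝ, ∀ a ∈ A, a.1 * q + a.2 = q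
      · obtain ⟨p, hp'⟩ := hq
        obtain ⟨g, hgΦ, hg⟩ := hfix p
        refine ⟨g.1, g.2, (hp g hgΦ).1, (hp g hgΦ).2.le, hmap g hgΦ, Or.inl ⟨hr, ?_⟩⟩
        rintro ⟨q, hq⟩
        obtain ⟨a, ha, b, hb, hab⟩ := hr
        have e1 := hp' a ha
        have e2 := hp' b hb
        have e3 := hq a ha
        have e4 := hq b hb
        have e5 : (a.1 - b.1) * (g.1 * q + g.2 - p) = 0 := by linarith
        have e6 : g.1 * q + g.2 - p = 0 := by
          rcases mul_eq_zero.1 e5 with h | h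
          · exact absurd (by linarith) hab
          · exact h
        have e7 : q = p := by
          have : g.1 * q + g.2 = p := by linarith
          rw [this] at e3
          linarith
        apply hg
        rw [e7] at e6
        linarith
      · refine ⟨1, 0, one_ne_zero, by simp, fun x hx => by simpa using hx, Or.inl ⟨hr, ?_⟩⟩
        rintro ⟨q, hq'⟩
        exact hq ⟨q, fun a ha => by simpa using hq' a ha⟩
    · push Not at hr
      obtain ⟨g, hg⟩ := hAne
      have hgX : ∀ m : ℕ, ∃ γ : ℝ, ∀ x ∈ X, g.1 ^ m * x + γ ∈ X := by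
        intro m
        induction m with
        | zero => exact ⟨0, fun x hx => by simpa using hx⟩
        | succ m ih =>
          obtain ⟨γ, hγ⟩ := ih
          refine ⟨g.1 * γ + g.2, fun x hx => ?_⟩
          have := hmap g (hAΦ hg) _ (hγ x hx)
          convert this using 1
          ring
      obtain ⟨m, hm⟩ := exists_pow_lt_of_lt_one (show (0 : ℝ) < 1 / 2 by norm_num) (h0 g hg).2
      obtain ⟨γ, hγ⟩ := hgX m
      refine ⟨g.1 ^ m, γ, pow_ne_zero _ (h0 g hg).1, ?_, hγ, Or.inr ⟨g.1, fun a ha => hr a ha g hg, ?_⟩⟩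
      · rw [abs_pow]
        exact pow_le_one₀ (abs_nonneg _) (h0 g hg).2.le
      · rw [abs_mul, abs_pow]
        have h1 := (h0 g hg).2
        have h2 : 0 ≤ |g.1| ^ m := pow_nonneg (abs_nonneg _) _
        nlinarith [abs_nonneg g.1]
  -- lower bound for the ratios
  obtain ⟨κ, hκ, hκΦ⟩ : ∃ κ : ℝ, 0 < κ ∧ ∀ p ∈ Φ, κ ≤ |p.1| := by
    obtain ⟨a, ha⟩ := hAne
    obtain ⟨p, hpΦ, hmin⟩ := hΦ.exists_isMinOn ⟨a, hAΦ ha⟩
      (f := fun p : ℝ × ℝ => |p.1|) (by fun_prop)
    exact ⟨|p.1|, abs_pos.2 (hp p hpΦ).1, fun q hq => hmin hq⟩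
  have hρpos : 0 < |ρ| := abs_pos.2 hρ0
  obtain ⟨N, hN⟩ := exists_nat_gt (1 / (κ * |ρ|))
  have hNpos : 0 < N := by
    have : (0 : ℝ) < N := lt_trans (by positivity) hN
    exact_mod_cast this
  obtain ⟨x, hxA, hfree⟩ := exists_free A hA hT h0 ρ γ hρ0 hρ1 H N
  have hr0 : ∀ j, (x j).1 * ρ ≠ 0 ∧ |(x j).1 * ρ| < 1 := by
    intro j
    refine ⟨mul_ne_zero (h0 _ (hxA j)).1 hρ0, ?_⟩
    rw [abs_mul]
    calc |(x j).1| * |ρ| ≤ |(x j).1| * 1 := mul_le_mul_of_nonneg_left hρ1 (abs_nonneg _)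
      _ < 1 := by simpa using (h0 _ (hxA j)).2
  have hsub : ∀ j, ∀ y ∈ X, (x j).1 * ρ * y + ((x j).1 * γ + (x j).2) ∈ X := by
    intro j y hy
    have := hmap (x j) (hAΦ (hxA j)) _ (hhX y hy)
    convert this using 1
    ring
  obtain ⟨Y, hYX, hYne, hYc, hY⟩ := sub_attractor hNpos (fun j => (x j).1 * ρ)
    (fun j => (x j).1 * γ + (x j).2) X hXc hXne hsub
  have hsum : 1 ≤ ∑ j, |(x j).1 * ρ| := by
    have h1 : ∀ j ∈ (Finset.univ : Finset (Fin N)), κ * |ρ| ≤ |(x j).1 * ρ| := by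
      intro j _
      rw [abs_mul]
      exact mul_le_mul_of_nonneg_right (hκΦ _ (hAΦ (hxA j))) (abs_nonneg _)
    have h2 := Finset.sum_le_sum h1
    rw [Finset.sum_const, Finset.card_univ, Fintype.card_fin, nsmul_eq_mul] at h2
    have h3 : 1 < N * (κ * |ρ|) := by
      rw [div_lt_iff₀ (by positivity)] at hN
      exact hN
    linarith
  obtain ⟨s, hs1, hs⟩ := exists_dim hNpos (fun j => (x j).1 * ρ) hr0 hsum
  have hdim := hEO N (fun j => (x j).1 * ρ) (fun j => (x j).1 * γ + (x j).2) hNpos hr0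
    (fun w w' hw => hfree w w' hw) Y hYne hYc hY s hs
  rw [min_eq_left hs1, ENNReal.ofReal_one] at hdim
  apply le_antisymm
  · calc dimH X ≤ dimH (univ : Set ℝ) := dimH_mono (subset_univ _)
      _ = 1 := by rw [Real.dimH_univ]
  · rw [← hdim]
    exact dimH_mono hYX

end Pool.Agent.H535R2.EOC
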